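import Pool.Agent.H373R2.T7.EnergyDef
import Pool.Agent.E8helper23.GB.CoreD

set_option autoImplicit false
set_option maxHeartbeats 4000000

/-!
# The additive energy of the values of `m ^ 2 + m` (helper28)
-/

namespace Pool.Agent.E8helper28.QD

open Finset Pool.Agent.H373R2.T7

/-- the quadratic polynomial -/
def qf (m : ℕ) : ℤ := (m : ℤ) ^ 2 + m

lemma qf_diff (a c : ℕ) : qf a - qf c = ((a : ℤ) - c) * ((a : ℤ) + c + 1) := by unfold qf; ring

/-- the number of representations as a difference -/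
def rt (Y : ℕ) (t : ℤ) : ℕ := ((Icc 1 Y ×ˢ Icc 1 Y).filter (fun q : ℕ × ℕ => qf q.1 - qf q.2 = t)).card

lemma rt_zero (Y : ℕ) : rt Y 0 ≤ Y := by
  unfold rt
  have h : ((Icc 1 Y ×ˢ Icc 1 Y).filter (fun q : ℕ × ℕ => qf q.1 - qf q.2 = 0)).card ≤ (Icc 1 Y).card := by
    apply card_le_card_of_injOn (fun q => q.1)
    · intro q hq
      rw [mem_coe, mem_filter, mem_product] at hq
      exact hq.1.1
    · intro q hq q' hq' h
      rw [mem_coe, mem_filter, mem_product] at hq hq'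
      have e : ∀ p : ℕ × ℕ, qf p.1 - qf p.2 = 0 → p.1 = p.2 := by
        intro p hp
        rw [qf_diff] at hp
        rcases mul_eq_zero.1 hp with h1 | h1
        · omega
        · omega
      have h1 := e q hq.2
      have h2 := e q' hq'.2
      simp only at h
      ext
      · exact h
      · rw [← h1, ← h2, h]
  rw [Nat.card_Icc] at h
  omega

lemma rt_le (Y : ℕ) (t : ℤ) (ht : t ≠ 0) : rt Y t ≤ t.natAbs.divisors.card := by
  unfold rt
  apply card_le_card_of_injOn (fun q => q.1 + q.2 + 1)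
  · intro q hq
    rw [mem_coe, mem_filter, mem_product] at hq
    rw [mem_coe, Nat.mem_divisors]
    refine ⟨?_, Int.natAbs_ne_zero.2 ht⟩
    rw [← Int.natCast_dvd, ← hq.2, qf_diff]
    push_cast
    exact dvd_mul_left _ _
  · intro q hq q' hq' h
    rw [mem_coe, mem_filter, mem_product] at hq hq'
    have h1 := hq.2
    have h2 := hq'.2
    rw [qf_diff] at h1 h2
    simp only at h
    have h3 : ((q.1 : ℤ) + q.2 + 1) = (q'.1 : ℤ) + q'.2 + 1 := by exact_mod_cast h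
    rw [← h3, ← h1] at h2
    have h4 : ((q.1 : ℤ) + q.2 + 1) ≠ 0 := by omega
    have h5 := mul_right_cancel₀ h4 h2
    ext <;> omega

lemma sum_natAbs (Z : ℕ) (g : ℕ → ℝ) (hg : ∀ n, 0 ≤ g n) (h0 : g 0 = 0) :
    ∑ t ∈ Icc (-(Z : ℤ)) Z, g t.natAbs ≤ 2 * ∑ n ∈ Icc 1 Z, g n := by
  classical
  have hmap : ∀ t ∈ Icc (-(Z : ℤ)) Z, t.natAbs ∈ Icc 0 Z := by
    intro t ht
    rw [mem_Icc] at ht ⊢
    omega
  rw [← sum_fiberwise_of_maps_to hmap]
  have h1 : ∀ n ∈ Icc 0 Z, ∑ t ∈ (Icc (-(Z : ℤ)) Z).filter (fun t => t.natAbs = n), g t.natAbs ≤ 2 * g n := by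
    intro n _
    have h2 : ∑ t ∈ (Icc (-(Z : ℤ)) Z).filter (fun t => t.natAbs = n), g t.natAbs =
        ((Icc (-(Z : ℤ)) Z).filter (fun t => t.natAbs = n)).card * g n := by
      rw [sum_congr rfl (g := fun _ => g n), sum_const, nsmul_eq_mul]
      intro t ht
      rw [(mem_filter.1 ht).2]
    rw [h2]
    apply mul_le_mul_of_nonneg_right _ (hg n)
    have h3 : (Icc (-(Z : ℤ)) Z).filter (fun t => t.natAbs = n) ⊆ {(n : ℤ), -(n : ℤ)} := by
      intro t ht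
      rw [mem_filter] at ht
      rw [mem_insert, mem_singleton]
      omega
    have h4 := (card_le_card h3).trans card_le_two
    exact_mod_cast h4
  refine (sum_le_sum h1).trans ?_
  rw [← mul_sum]
  apply mul_le_mul_of_nonneg_left _ (by norm_num)
  apply le_of_eq
  symm
  apply sum_subset
  · intro n hn
    rw [mem_Icc] at hn ⊢
    omega
  · intro n hn hn2
    rw [mem_Icc] at hn hn2
    have : n = 0 := by omega
    rw [this, h0]

theorem energy_qf (Y : ℕ) : (energy 2 Y qf : ℝ) ≤ (Y : ℝ) ^ 2 + 2 * ((2 * Y ^ 2 : ℕ) * (1 + Real.log (2 * Y ^ 2 : ℕ)) ^ 4) := by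
  classical
  have hE : energy 2 Y qf ≤ ∑ t ∈ Icc (-((2 * Y ^ 2 : ℕ) : ℤ)) ((2 * Y ^ 2 : ℕ) : ℤ), rt Y t ^ 2 := by
    unfold energy
    have hmap : ∀ q ∈ ((Fintype.piFinset fun _ : Fin 2 => Icc 1 Y) ×ˢ (Fintype.piFinset fun _ : Fin 2 => Icc 1 Y)).filter
        (fun q => ∑ i, qf (q.1 i) = ∑ i, qf (q.2 i)), qf (q.1 0) - qf (q.2 0) ∈
        Icc (-((2 * Y ^ 2 : ℕ) : ℤ)) ((2 * Y ^ 2 : ℕ) : ℤ) := by
      intro q hq
      rw [mem_filter, mem_product, Fintype.mem_piFinset, Fintype.mem_piFinset] at hq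
      have h1 := mem_Icc.1 (hq.1.1 0)
      have h2 := mem_Icc.1 (hq.1.2 0)
      have e : ∀ n : ℕ, 1 ≤ n → n ≤ Y → 0 ≤ qf n ∧ qf n ≤ ((2 * Y ^ 2 : ℕ) : ℤ) := by
        intro n n1 n2
        have n1' : (1 : ℤ) ≤ n := by exact_mod_cast n1
        have n2' : (n : ℤ) ≤ Y := by exact_mod_cast n2
        unfold qf
        push_cast
        constructor
        · positivity
        · nlinarith
      have h3 := e _ h1.1 h1.2
      have h4 := e _ h2.1 h2.2
      rw [mem_Icc]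
      constructor <;> linarith [h3.1, h3.2, h4.1, h4.2]
    rw [card_eq_sum_card_fiberwise hmap]
    refine sum_le_sum fun t _ => ?_
    unfold rt
    rw [sq, ← card_product]
    apply card_le_card_of_injOn (fun q => ((q.1 0, q.2 0), (q.2 1, q.1 1)))
    · intro q hq
      rw [mem_coe, mem_filter, mem_filter, mem_product, Fintype.mem_piFinset, Fintype.mem_piFinset, Fin.sum_univ_two,
        Fin.sum_univ_two] at hq
      rw [mem_coe, mem_product, mem_filter, mem_filter, mem_product, mem_product]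
      simp only
      exact ⟨⟨⟨hq.1.1.1 0, hq.1.1.2 0⟩, hq.2⟩, ⟨⟨hq.1.1.2 1, hq.1.1.1 1⟩, by linarith [hq.1.2, hq.2]⟩⟩
    · intro q _ q' _ h
      simp only [Prod.mk.injEq] at h
      obtain ⟨⟨h1, h2⟩, h3, h4⟩ := h
      apply Prod.ext
      · funext i
        fin_cases i
        · exact h1
        · exact h4
      · funext i
        fin_cases i
        · exact h2
        · exact h3
  have h2 : ∀ t ∈ Icc (-((2 * Y ^ 2 : ℕ) : ℤ)) ((2 * Y ^ 2 : ℕ) : ℤ), ((rt Y t ^ 2 : ℕ) : ℝ) ≤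
      (if t = 0 then (Y : ℝ) ^ 2 else 0) + ((t.natAbs.divisors.card : ℕ) : ℝ) ^ 2 := by
    intro t _
    push_cast
    by_cases ht : t = 0
    · rw [if_pos ht, ht]
      have h3 : (rt Y 0 : ℝ) ≤ Y := by exact_mod_cast rt_zero Y
      have h4 : (rt Y 0 : ℝ) ^ 2 ≤ Y ^ 2 := pow_le_pow_left₀ (Nat.cast_nonneg _) h3 2
      have h5 : (0 : ℝ) ≤ (((0 : ℤ).natAbs.divisors.card : ℕ) : ℝ) ^ 2 := by positivity
      linarith
    · rw [if_neg ht, zero_add]
      have h3 : (rt Y t : ℝ) ≤ (t.natAbs.divisors.card : ℕ) := by exact_mod_cast rt_le Y t ht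
      exact pow_le_pow_left₀ (Nat.cast_nonneg _) h3 2
  calc (energy 2 Y qf : ℝ) ≤ ((∑ t ∈ Icc (-((2 * Y ^ 2 : ℕ) : ℤ)) ((2 * Y ^ 2 : ℕ) : ℤ), rt Y t ^ 2 : ℕ) : ℝ) := by exact_mod_cast hE
    _ = ∑ t ∈ Icc (-((2 * Y ^ 2 : ℕ) : ℤ)) ((2 * Y ^ 2 : ℕ) : ℤ), ((rt Y t ^ 2 : ℕ) : ℝ) := by rw [Nat.cast_sum]
    _ ≤ ∑ t ∈ Icc (-((2 * Y ^ 2 : ℕ) : ℤ)) ((2 * Y ^ 2 : ℕ) : ℤ),
        ((if t = 0 then (Y : ℝ) ^ 2 else 0) + ((t.natAbs.divisors.card : ℕ) : ℝ) ^ 2) := sum_le_sum h2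
    _ ≤ (Y : ℝ) ^ 2 + 2 * ((2 * Y ^ 2 : ℕ) * (1 + Real.log (2 * Y ^ 2 : ℕ)) ^ 4) := by
        rw [sum_add_distrib]
        apply add_le_add
        · rw [sum_ite_eq' (Icc (-((2 * Y ^ 2 : ℕ) : ℤ)) ((2 * Y ^ 2 : ℕ) : ℤ)) 0 (fun _ => (Y : ℝ) ^ 2)]
          split_ifs
          · exact le_rfl
          · positivity
        · refine (sum_natAbs (2 * Y ^ 2) (fun n => ((n.divisors.card : ℕ) : ℝ) ^ 2) (fun n => by positivity) (by simp)).trans ?_
          exact mul_le_mul_of_nonneg_left (Pool.Agent.E8helper23.GB.tau_sq _) (by norm_num)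

end Pool.Agent.E8helper28.QD
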