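import Pool.Agent.E8helper28.QD.Qd1
import Pool.Agent.E8helper28.LN.Ch2
import Pool.Agent.TH935.TF4

set_option autoImplicit false
set_option maxHeartbeats 4000000

/-!
# Prime values of `n ^ 2 + n + A` with arbitrary weights, for almost all `A` (helper28)
-/

namespace Pool.Agent.E8helper28.QD

open Finset Pool.Agent.H373R2.T7
open Pool.Agent.TH935.TF (LL mdl LL_nonneg LL_le one_mom mdl_nonneg mdl_le)
open Pool.Agent.E8helper28.LN (pp_inj)

lemma qf_inj (a c : ℕ) (h : qf a = qf c) : a = c := by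
  have h1 : qf a - qf c = 0 := by rw [h, sub_self]
  rw [qf_diff] at h1
  rcases mul_eq_zero.1 h1 with h2 | h2
  · omega
  · omega

lemma qf_nonneg (a : ℕ) : 0 ≤ qf a := by unfold qf; positivity

lemma qf_le (a Y : ℕ) (h : a ≤ Y) : qf a ≤ ((Y ^ 2 + Y : ℕ) : ℤ) := by
  unfold qf
  push_cast
  have h1 : (a : ℤ) ≤ Y := by exact_mod_cast h
  nlinarith [Int.natCast_nonneg a]

/-- the estimate in terms of the size -/
theorem quad_LL (U B : ℕ) (hB : 1 ≤ B) : ∃ B0 : ℕ, ∀ E : ℕ, ∃ N0 : ℕ, ∀ N : ℕ, N0 ≤ N → ∀ z : ℕ, Real.log N ^ B0 ≤ z →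
    (z : ℝ) ≤ Real.log N ^ E → ∀ K : ℝ, 0 < K → ∀ G : ℕ → ℝ, (∀ n ∈ Icc 1 (B * N), |G n| ≤ K) →
    ∑ v ∈ Icc 1 (B * N ^ 2), |∑ n ∈ Icc 1 (B * N), G n * (LL (qf n + v) - mdl z (qf n + v))| ≤ K * ((N : ℝ) ^ 3 / Real.log N ^ U) := by
  obtain ⟨B1, h1⟩ := one_mom 2 6 (U + 1) 0
  refine ⟨B1 + 1, fun E => ?_⟩
  obtain ⟨n1, h1⟩ := h1 E
  obtain ⟨C1, hC1⟩ : ∃ C1 : ℕ, C1 = 2 * B ^ 2 + B := ⟨_, rfl⟩
  obtain ⟨n2, h2⟩ := ev_L' (3 ^ B1 + Real.log C1 + Real.log (2 * B ^ 2) + 200 * 5 ^ 4 * C1 + 2 * C1 * B + 10)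
  refine ⟨n1 + n2 + 3, fun N hN z hz1 hz2 K hK G hG => ?_⟩
  have b2 := h2 N (by omega)
  obtain ⟨L, hL⟩ : ∃ L, L = Real.log (N : ℝ) := ⟨_, rfl⟩
  rw [← hL] at b2 hz1 hz2 ⊢
  have hBr : (1 : ℝ) ≤ B := by exact_mod_cast hB
  have hC1r : (1 : ℝ) ≤ C1 := by
    rw [hC1]; push_cast; nlinarith
  have hlC1 : 0 ≤ Real.log C1 := Real.log_nonneg hC1r
  have hlB : 0 ≤ Real.log (2 * B ^ 2) := Real.log_nonneg (by nlinarith)
  have h3B : (0 : ℝ) < 3 ^ B1 := by positivity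
  have hCB : (0 : ℝ) ≤ 200 * 5 ^ 4 * C1 := by positivity
  have hCB2 : (0 : ℝ) ≤ 2 * C1 * B := by positivity
  have hL10 : 10 ≤ L := by linarith
  have hL1 : 1 ≤ L := by linarith
  have hL0 : 0 < L := by linarith
  have hNr : (3 : ℝ) ≤ N := by exact_mod_cast (by omega : 3 ≤ N)
  have hN0 : (0 : ℝ) < N := by linarith
  obtain ⟨X, hX⟩ : ∃ X : ℕ, X = C1 * N ^ 2 := ⟨_, rfl⟩
  have hXr : (X : ℝ) = C1 * N ^ 2 := by rw [hX]; push_cast; ring
  have hNX : N ≤ X := by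
    rw [hX, sq]
    have : 1 ≤ C1 := by exact_mod_cast hC1r
    nlinarith [show 3 ≤ N by omega]
  obtain ⟨LX, hLX⟩ : ∃ LX, LX = Real.log (X : ℝ) := ⟨_, rfl⟩
  have hLXe : LX = Real.log C1 + 2 * L := by
    rw [hLX, hXr, Real.log_mul (by positivity) (by positivity), Real.log_pow, ← hL]
    push_cast
    ring
  have hLLX : L ≤ LX := by linarith
  have hLX2 : LX ≤ 3 * L := by linarith
  have hLX0 : 0 < LX := by linarith
  have hz1' : LX ^ B1 ≤ z := by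
    refine le_trans ?_ hz1
    calc LX ^ B1 ≤ (3 * L) ^ B1 := pow_le_pow_left₀ hLX0.le hLX2 _
      _ = 3 ^ B1 * L ^ B1 := mul_pow _ _ _
      _ ≤ L * L ^ B1 := mul_le_mul_of_nonneg_right (by linarith) (by positivity)
      _ = L ^ (B1 + 1) := by ring
  have hz2' : (z : ℝ) ≤ LX ^ E := hz2.trans (pow_le_pow_left₀ hL0.le hLLX E)
  have key := h1 X (by omega) (B * N) qf (fun m hm => by
      rw [mem_Icc] at hm
      rw [abs_of_nonneg (qf_nonneg m)]
      refine (qf_le m (B * N) hm.2).trans ?_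
      rw [hX, hC1]
      have h5 : B * N ≤ B * N ^ 2 := by rw [sq]; exact Nat.mul_le_mul_left _ (Nat.le_mul_of_pos_left _ (by omega))
      have h6 : (B * N) ^ 2 + B * N ≤ (2 * B ^ 2 + B) * N ^ 2 := by nlinarith
      exact_mod_cast h6) (by
      rw [← hLX]
      have e1 := energy_qf (B * N)
      have e2 : Real.log ((2 * (B * N) ^ 2 : ℕ) : ℝ) ≤ 4 * L := by
        push_cast
        rw [show (2 : ℝ) * (B * N) ^ 2 = (2 * B ^ 2) * N ^ 2 by ring, Real.log_mul (by positivity) (by positivity), Real.log_pow, ← hL]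
        push_cast
        linarith
      have e3 : (1 + Real.log ((2 * (B * N) ^ 2 : ℕ) : ℝ)) ^ 4 ≤ (5 * L) ^ 4 := by
        apply pow_le_pow_left₀
        · have : 0 ≤ Real.log ((2 * (B * N) ^ 2 : ℕ) : ℝ) := Real.log_natCast_nonneg _
          linarith
        · linarith
      have e4 : (energy 2 (B * N) qf : ℝ) ≤ 5 * 5 ^ 4 * ((B * N) ^ 2 * L ^ 4) := by
        refine e1.trans ?_
        have e5 : ((2 * (B * N) ^ 2 : ℕ) : ℝ) * (1 + Real.log ((2 * (B * N) ^ 2 : ℕ) : ℝ)) ^ 4 ≤ (2 * (B * N) ^ 2) * (5 * L) ^ 4 := by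
          push_cast at e3 ⊢
          exact mul_le_mul_of_nonneg_left e3 (by positivity)
        have e6 : (1 : ℝ) ≤ L ^ 4 := one_le_pow₀ hL1
        have e7 : ((B * N : ℕ) : ℝ) ^ 2 ≤ ((B : ℝ) * N) ^ 2 * L ^ 4 := by
          push_cast
          exact le_mul_of_one_le_right (by positivity) e6
        calc ((B * N : ℕ) : ℝ) ^ 2 + 2 * (((2 * (B * N) ^ 2 : ℕ) : ℝ) * (1 + Real.log ((2 * (B * N) ^ 2 : ℕ) : ℝ)) ^ 4)
            ≤ (B * N) ^ 2 * L ^ 4 + 2 * ((2 * (B * N) ^ 2) * (5 * L) ^ 4) := by linarith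
          _ = (1 + 4 * 5 ^ 4) * ((B * N) ^ 2 * L ^ 4) := by ring
          _ ≤ 5 * 5 ^ 4 * ((B * N) ^ 2 * L ^ 4) := mul_le_mul_of_nonneg_right (by norm_num) (by positivity)
      calc (energy 2 (B * N) qf : ℝ) * X ≤ (5 * 5 ^ 4 * ((B * N) ^ 2 * L ^ 4)) * (C1 * N ^ 2) := by
            rw [hXr]
            exact mul_le_mul_of_nonneg_right e4 (by positivity)
        _ = (5 * 5 ^ 4 * C1) * (L ^ 4 * (B ^ 2 * N ^ 4)) := by ring
        _ ≤ L * (L ^ 4 * (B ^ 2 * N ^ 4)) := mul_le_mul_of_nonneg_right (by linarith) (by positivity)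
        _ = L ^ 5 * (B ^ 2 * N ^ 4) := by ring
        _ ≤ L ^ 6 * (B ^ 4 * N ^ 4) := by
            apply mul_le_mul (pow_le_pow_right₀ hL1 (by norm_num)) _ (by positivity) (by positivity)
            apply mul_le_mul_of_nonneg_right _ (by positivity)
            exact pow_le_pow_right₀ hBr (by norm_num)
        _ ≤ LX ^ 6 * ((B * N : ℕ) : ℝ) ^ (2 * 2) := by
            push_cast
            rw [mul_pow]
            apply mul_le_mul_of_nonneg_right _ (by positivity)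
            exact pow_le_pow_left₀ hL0.le hLLX _) z (by rw [← hLX]; exact hz1') (by rw [← hLX]; exact hz2') 1 one_ne_zero
    (B * N ^ 2) (by
      rw [Int.natAbs_one, one_mul, hX, hC1]
      nlinarith) 1 one_pos
  rw [← hLX] at key
  -- signs
  obtain ⟨ε, hε1, hε2⟩ : ∃ ε : ℕ → ℝ, (∀ v, |ε v| ≤ 1) ∧ ∀ v : ℕ,
      |∑ n ∈ Icc 1 (B * N), G n * (LL (qf n + v) - mdl z (qf n + v))| =
      ε v * ∑ n ∈ Icc 1 (B * N), G n * (LL (qf n + v) - mdl z (qf n + v)) := by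
    refine ⟨fun v => if 0 ≤ ∑ n ∈ Icc 1 (B * N), G n * (LL (qf n + v) - mdl z (qf n + v)) then 1 else -1, ?_, ?_⟩
    · intro a
      simp only
      split_ifs <;> simp
    · intro a
      simp only
      split_ifs with h5
      · rw [abs_of_nonneg h5, one_mul]
      · rw [abs_of_neg (not_le.1 h5)]; ring
  rw [sum_congr rfl fun v _ => hε2 v]
  have hsw : ∑ v ∈ Icc 1 (B * N ^ 2), ε v * ∑ n ∈ Icc 1 (B * N), G n * (LL (qf n + v) - mdl z (qf n + v)) =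
      ∑ n ∈ Icc 1 (B * N), G n * ∑ v ∈ Icc 1 (B * N ^ 2), ε v * (LL (1 * v + qf n) - mdl z (1 * v + qf n)) := by
    rw [sum_congr rfl fun v _ => mul_sum _ _ _, sum_comm]
    refine sum_congr rfl fun n _ => ?_
    rw [mul_sum]
    refine sum_congr rfl fun v _ => ?_
    rw [show (1 : ℤ) * v + qf n = qf n + v by ring]
    ring
  rw [hsw]
  have hk := key ε (fun q _ => hε1 q)
  calc ∑ n ∈ Icc 1 (B * N), G n * ∑ v ∈ Icc 1 (B * N ^ 2), ε v * (LL (1 * v + qf n) - mdl z (1 * v + qf n))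
      ≤ ∑ n ∈ Icc 1 (B * N), K * |∑ v ∈ Icc 1 (B * N ^ 2), ε v * (LL (1 * v + qf n) - mdl z (1 * v + qf n))| := by
        refine sum_le_sum fun n hn => ?_
        refine (le_abs_self _).trans ?_
        rw [abs_mul]
        exact mul_le_mul_of_nonneg_right (hG n hn) (abs_nonneg _)
    _ = K * ∑ n ∈ Icc 1 (B * N), |∑ v ∈ Icc 1 (B * N ^ 2), ε v * (LL (1 * v + qf n) - mdl z (1 * v + qf n))| := by rw [mul_sum]
    _ ≤ K * (1 * ((2 * X / LX ^ (U + 1)) * (B * N : ℕ))) := mul_le_mul_of_nonneg_left hk hK.le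
    _ ≤ K * ((N : ℝ) ^ 3 / L ^ U) := by
        apply mul_le_mul_of_nonneg_left _ hK.le
        rw [one_mul, hXr]
        push_cast
        calc 2 * (C1 * (N : ℝ) ^ 2) / LX ^ (U + 1) * (B * N) ≤ 2 * (C1 * (N : ℝ) ^ 2) / L ^ (U + 1) * (B * N) := by
              apply mul_le_mul_of_nonneg_right _ (by positivity)
              apply div_le_div_of_nonneg_left (by positivity) (by positivity)
              exact pow_le_pow_left₀ hL0.le hLLX _
          _ = (2 * C1 * B / L) * (N ^ 3 / L ^ U) := by rw [pow_succ L U]; field_simp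
          _ ≤ 1 * (N ^ 3 / L ^ U) := by
              apply mul_le_mul_of_nonneg_right _ (by positivity)
              rw [div_le_one hL0]
              linarith
          _ = _ := one_mul _

/-- the same for primes -/
theorem quad_one (U B : ℕ) (hB : 1 ≤ B) : ∃ B0 : ℕ, ∀ E : ℕ, ∃ N0 : ℕ, ∀ N : ℕ, N0 ≤ N → ∀ z : ℕ, Real.log N ^ B0 ≤ z →
    (z : ℝ) ≤ Real.log N ^ E → ∀ K : ℝ, 0 < K → ∀ G : ℕ → ℝ, (∀ n ∈ Icc 1 (B * N), |G n| ≤ K) →
    ∑ v ∈ Icc 1 (B * N ^ 2), |∑ n ∈ Icc 1 (B * N), G n * (lamP (qf n + v) - mdl z (qf n + v))| ≤ K * ((N : ℝ) ^ 3 / Real.log N ^ U) := by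
  obtain ⟨B1, h1⟩ := quad_LL (U + 1) B hB
  refine ⟨B1, fun E => ?_⟩
  obtain ⟨n1, h1⟩ := h1 E
  obtain ⟨C1, hC1⟩ : ∃ C1 : ℕ, C1 = 2 * B ^ 2 + B := ⟨_, rfl⟩
  obtain ⟨n2, h2⟩ := ev_L' (Real.log C1 + 10)
  obtain ⟨n3, h3⟩ := ev_log' (U + 2) (6 * B * C1)
  refine ⟨n1 + n2 + n3 + 3, fun N hN z hz1 hz2 K hK G hG => ?_⟩
  have b1 := h1 N (by omega) z hz1 hz2 K hK G hG
  have b2 := h2 N (by omega)
  have b3 := h3 N (by omega)
  obtain ⟨L, hL⟩ : ∃ L, L = Real.log (N : ℝ) := ⟨_, rfl⟩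
  rw [← hL] at b1 b2 b3 ⊢
  have hBr : (1 : ℝ) ≤ B := by exact_mod_cast hB
  have hC1r : (1 : ℝ) ≤ C1 := by
    rw [hC1]; push_cast; nlinarith
  have hlC1 : 0 ≤ Real.log C1 := Real.log_nonneg hC1r
  have hL10 : 10 ≤ L := by linarith
  have hL1 : 1 ≤ L := by linarith
  have hL0 : 0 < L := by linarith
  have hNr : (3 : ℝ) ≤ N := by exact_mod_cast (by omega : 3 ≤ N)
  have hN0 : (0 : ℝ) < N := by linarith
  obtain ⟨X, hX⟩ : ∃ X : ℕ, X = C1 * N ^ 2 := ⟨_, rfl⟩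
  have hXr : (X : ℝ) = C1 * N ^ 2 := by rw [hX]; push_cast; ring
  have hLXe : Real.log (X : ℝ) = Real.log C1 + 2 * L := by
    rw [hXr, Real.log_mul (by positivity) (by positivity), Real.log_pow, ← hL]
    push_cast
    ring
  have hX1 : 1 ≤ X := by
    rw [hX]
    have : 1 ≤ C1 := by exact_mod_cast hC1r
    exact Nat.mul_pos this (pow_pos (by omega) 2)
  have hsq : √(X : ℝ) ≤ C1 * N := by
    rw [Real.sqrt_le_left (by positivity), hXr]
    nlinarith [sq_nonneg (N : ℝ)]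
  have hval : ∀ n ∈ Icc 1 (B * N), ∀ v ∈ Icc 1 (B * N ^ 2), qf n + v ≤ X := by
    intro n hn v hv
    rw [mem_Icc] at hn hv
    have h5 := qf_le n (B * N) hn.2
    have h6 : (B * N) ^ 2 + B * N + B * N ^ 2 ≤ X := by
      rw [hX, hC1]
      have h7 : B * N ≤ B ^ 2 * N ^ 2 := by
        have : 1 ≤ B * N := Nat.mul_pos (by omega) (by omega)
        nlinarith
      nlinarith
    have h8 : ((v : ℕ) : ℤ) ≤ ((B * N ^ 2 : ℕ) : ℤ) := by exact_mod_cast hv.2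
    have h9 : (((B * N) ^ 2 + B * N + B * N ^ 2 : ℕ) : ℤ) ≤ X := by exact_mod_cast h6
    push_cast at h5 h8 h9 ⊢
    linarith
  have hpp : ∑ v ∈ Icc 1 (B * N ^ 2), ∑ n ∈ Icc 1 (B * N), K * (lamI (qf n + v) - lamP (qf n + v)) ≤
      K * ((B * N) * (2 * (C1 * N) * (3 * L))) := by
    rw [sum_comm]
    have h5 : ∀ n ∈ Icc 1 (B * N), ∑ v ∈ Icc 1 (B * N ^ 2), K * (lamI (qf n + v) - lamP (qf n + v)) ≤ K * (2 * (C1 * N) * (3 * L)) := by
      intro n hn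
      rw [← mul_sum]
      apply mul_le_mul_of_nonneg_left _ hK.le
      refine (pp_inj (Icc 1 (B * N ^ 2)) X (fun v => qf n + v) (fun v _ w _ h => by
        omega) hX1 (fun v hv => hval n hn v hv)).trans ?_
      rw [hLXe]
      apply mul_le_mul _ (by linarith) (by linarith) (by positivity)
      exact mul_le_mul_of_nonneg_left hsq (by norm_num)
    refine (sum_le_sum h5).trans ?_
    rw [sum_const, Nat.card_Icc, nsmul_eq_mul, Nat.add_sub_cancel]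
    push_cast
    apply le_of_eq
    ring
  have hmain : ∑ v ∈ Icc 1 (B * N ^ 2), |∑ n ∈ Icc 1 (B * N), G n * (lamP (qf n + v) - mdl z (qf n + v))| ≤
      ∑ v ∈ Icc 1 (B * N ^ 2), |∑ n ∈ Icc 1 (B * N), G n * (LL (qf n + v) - mdl z (qf n + v))| +
      ∑ v ∈ Icc 1 (B * N ^ 2), ∑ n ∈ Icc 1 (B * N), K * (lamI (qf n + v) - lamP (qf n + v)) := by
    rw [← sum_add_distrib]
    refine sum_le_sum fun v hv => ?_
    have e1 : ∑ n ∈ Icc 1 (B * N), G n * (lamP (qf n + v) - mdl z (qf n + v)) =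
        ∑ n ∈ Icc 1 (B * N), G n * (LL (qf n + v) - mdl z (qf n + v)) -
        ∑ n ∈ Icc 1 (B * N), G n * (lamI (qf n + v) - lamP (qf n + v)) := by
      rw [← sum_sub_distrib]
      refine sum_congr rfl fun n hn => ?_
      have h5 : (1 : ℤ) ≤ qf n + v := by
        have := qf_nonneg n
        have := (mem_Icc.1 hv).1
        omega
      have h6 : LL (qf n + v) = lamI (qf n + v) := by
        unfold LL lamI
        rw [if_pos h5]
        congr 1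
      rw [h6]
      ring
    rw [e1]
    refine (abs_sub _ _).trans ?_
    apply add_le_add le_rfl
    refine (abs_sum_le_sum_abs _ _).trans (sum_le_sum fun n hn => ?_)
    rw [abs_mul, abs_of_nonneg (sub_nonneg.2 (lamP_le _))]
    exact mul_le_mul_of_nonneg_right (hG n hn) (sub_nonneg.2 (lamP_le _))
  refine hmain.trans ((add_le_add b1 hpp).trans ?_)
  rw [← mul_add]
  apply mul_le_mul_of_nonneg_left _ hK.le
  have hss : √(N : ℝ) * √(N : ℝ) = N := Real.mul_self_sqrt hN0.le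
  have hs0 : 0 < √(N : ℝ) := Real.sqrt_pos.2 hN0
  have e2 : (N : ℝ) ^ 3 / L ^ (U + 1) ≤ (1 / 2) * (N ^ 3 / L ^ U) := by
    rw [show (N : ℝ) ^ 3 / L ^ (U + 1) = (1 / L) * (N ^ 3 / L ^ U) by rw [pow_succ L U]; field_simp]
    apply mul_le_mul_of_nonneg_right _ (by positivity)
    exact one_div_le_one_div_of_le (by norm_num) (by linarith)
  have e3 : (B * N) * (2 * (C1 * N) * (3 * L)) ≤ (1 / 2) * ((N : ℝ) ^ 3 / L ^ U) := by
    have e4 : 6 * B * C1 * L ^ (U + 2) ≤ (N : ℝ) := by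
      refine b3.trans ?_
      nlinarith [Real.one_le_sqrt.2 (by linarith : (1 : ℝ) ≤ N)]
    rw [← mul_div_assoc, le_div_iff₀ (by positivity)]
    calc (B * N) * (2 * (C1 * N) * (3 * L)) * L ^ U = (6 * B * C1 * L ^ (U + 2)) * N ^ 2 / L := by
          rw [pow_add]; field_simp; ring
      _ ≤ N * N ^ 2 / L := by gcongr
      _ ≤ 1 / 2 * N ^ 3 := by
          rw [div_le_iff₀ hL0]
          have : (0 : ℝ) < N ^ 3 := by positivity
          nlinarith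
  linarith

end Pool.Agent.E8helper28.QD
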