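import Pool.Agent.E8helper28.QD.Qd2
import Pool.Agent.TH935.TG2

set_option autoImplicit false
set_option maxHeartbeats 4000000

/-!
# Prime values of `n ^ 2 + n + A` in arbitrary sets, for almost all vectors `A` (helper28)
-/

namespace Pool.Agent.E8helper28.QD

open Finset Pool.Agent.H373R2.T7
open Pool.Agent.TH935.TF (LL mdl LL_nonneg LL_le one_mom mdl_nonneg mdl_le ev_loglog)
open Pool.Agent.H560R3.GB (choose_delta)

/-- the vectors of constant terms -/
def vec (k B N : ℕ) : Finset (Fin k → ℕ) := Fintype.piFinset (fun _ : Fin k => Icc 1 (B * N ^ 2))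

lemma qf_cast (n a : ℕ) : qf n + (a : ℤ) = ((n ^ 2 + n + a : ℕ) : ℤ) := by unfold qf; push_cast; ring

lemma size_bd (B N n a : ℕ) (hB : 1 ≤ B) (hN : 1 ≤ N) (hn : n ≤ B * N) (ha : a ≤ B * N ^ 2) :
    n ^ 2 + n + a ≤ (3 * B ^ 2) * N ^ 2 := by
  have h1 : n ^ 2 ≤ (B * N) ^ 2 := Nat.pow_le_pow_left hn 2
  have h2 : B * N ≤ B ^ 2 * N ^ 2 := by
    have : 1 ≤ B * N := Nat.mul_pos (by omega) (by omega)
    nlinarith
  have h3 : B * N ^ 2 ≤ B ^ 2 * N ^ 2 := by
    apply Nat.mul_le_mul_right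
    nlinarith
  nlinarith

theorem quad_mom (k B U : ℕ) (hB : 1 ≤ B) : ∃ B0 : ℕ, ∀ E : ℕ, ∃ N0 : ℕ, ∀ N : ℕ, N0 ≤ N → ∀ z : ℕ, Real.log N ^ B0 ≤ z →
    (z : ℝ) ≤ Real.log N ^ E → ∀ w : ℕ → ℝ, (∀ n, |w n| ≤ 1) →
    ∑ A ∈ vec k B N, |∑ n ∈ Icc 1 (B * N), w n * (∏ i, lamP (qf n + A i) - ∏ i, mdl z (qf n + A i))| ≤
      (N : ℝ) ^ (2 * k + 1) / Real.log N ^ U := by
  obtain ⟨B0, h0⟩ := quad_one (U + k + 1) B hB
  refine ⟨B0 + 1, fun E => ?_⟩
  obtain ⟨n0, h0⟩ := h0 E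
  obtain ⟨n1, h1⟩ := ev_L' (k * 4 ^ k * B ^ k + Real.log (3 * B ^ 2) + 10)
  obtain ⟨n3, h3⟩ := Vz_inv_small E
  refine ⟨n0 + n1 + n3 + 3, fun N hN z hz1 hz2 w hw => ?_⟩
  have b1 := h1 N (by omega)
  obtain ⟨L, hL⟩ : ∃ L, L = Real.log (N : ℝ) := ⟨_, rfl⟩
  have b3 := h3 N (by omega) z
  have b0 := h0 N (by omega) z
  rw [← hL] at b0 b1 b3 hz1 hz2 ⊢
  have hBr : (1 : ℝ) ≤ B := by exact_mod_cast hB
  have hlB : 0 ≤ Real.log (3 * B ^ 2) := Real.log_nonneg (by nlinarith)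
  have hkB : (0 : ℝ) ≤ k * 4 ^ k * B ^ k := by positivity
  have hL10 : 10 ≤ L := by linarith
  have hL1 : 1 ≤ L := by linarith
  have hL0 : 0 < L := by linarith
  have hNr : (3 : ℝ) ≤ N := by exact_mod_cast (by omega : 3 ≤ N)
  have hN0 : (0 : ℝ) < N := by linarith
  have hz1r : 1 ≤ z := by
    have : (1 : ℝ) ≤ z := (one_le_pow₀ hL1).trans hz1
    exact_mod_cast this
  have hV := b3 hz1r hz2
  have hlogX : Real.log (((3 * B ^ 2) * N ^ 2 : ℕ) : ℝ) ≤ 4 * L := by
    push_cast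
    rw [Real.log_mul (by positivity) (by positivity), Real.log_pow, ← hL]
    push_cast
    linarith
  have key := tele (B * N) (fun _ : Fin k => B * N ^ 2) (fun _ => Nat.mul_pos (by omega) (pow_pos (by omega) 2))
    (fun _ n v => lamP (qf n + v)) (fun _ n v => mdl z (qf n + v)) (4 * L) (N / (B * L ^ (U + k + 1))) (by linarith) (by positivity)
    (fun i n hn v hv => by
      rw [mem_Icc] at hn hv
      rw [abs_of_nonneg (lamP_nonneg _), qf_cast]
      unfold lamP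
      rw [Int.toNat_natCast]
      split_ifs with h5
      · refine le_trans ?_ hlogX
        apply Real.log_le_log
        · exact_mod_cast h5.pos
        · exact_mod_cast size_bd B N n v hB (by omega) hn.2 hv.2
      · positivity)
    (fun i n hn v hv => by
      rw [abs_of_nonneg (mdl_nonneg _ _)]
      exact (mdl_le _ _).trans (hV.trans (by linarith)))
    (by
      intro i K hK G hG
      refine (b0 ((pow_le_pow_right₀ hL1 (by omega)).trans hz1) hz2 K hK G hG).trans ?_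
      apply mul_le_mul_of_nonneg_left _ hK.le
      apply le_of_eq
      push_cast
      field_simp)
    univ 1 one_pos (fun n _ => w n) (fun n _ m _ => hw n) (fun _ _ _ _ _ => rfl)
  unfold vec
  refine key.trans ?_
  rw [card_univ, Fintype.card_fin, prod_const, card_univ, Fintype.card_fin]
  push_cast
  calc (k : ℝ) * (1 * (4 * L) ^ k * (N / (B * L ^ (U + k + 1)))) * (B * (N : ℝ) ^ 2) ^ k
      ≤ (k : ℝ) * (1 * (4 * L) ^ k * (N / (1 * L ^ (U + k + 1)))) * (B * (N : ℝ) ^ 2) ^ k := by gcongr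
    _ = (k * 4 ^ k * B ^ k / L) * (N ^ (2 * k + 1) / L ^ U) := by
        rw [mul_pow, mul_pow, ← pow_mul, show U + k + 1 = k + U + 1 by ring, pow_succ L (k + U), pow_add L k U, pow_succ (N : ℝ) (2 * k)]
        field_simp
    _ ≤ 1 * (N ^ (2 * k + 1) / L ^ U) := by
        apply mul_le_mul_of_nonneg_right _ (by positivity)
        rw [div_le_one hL0]
        linarith
    _ = _ := one_mul _

/-- all values are primes -/
def qP {k : ℕ} (A : Fin k → ℕ) (n : ℕ) : Prop := ∀ i, (n ^ 2 + n + A i).Prime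

/-- no value has a small prime factor -/
def qR {k : ℕ} (z : ℕ) (A : Fin k → ℕ) (n : ℕ) : Prop := ∀ i, ∀ p ∈ pz z, ¬ p ∣ n ^ 2 + n + A i

open Classical in
lemma sum_mdlq {k : ℕ} (A : Fin k → ℕ) (z : ℕ) (M : Finset ℕ) :
    ∑ n ∈ M, ∏ i, mdl z (qf n + A i) = (Vz z)⁻¹ ^ k * (M.filter (fun n => qR z A n)).card := by
  rw [card_filter]
  push_cast
  rw [mul_sum]
  apply sum_congr rfl
  intro n _
  have e : ∀ i : Fin k, mdl z (qf n + A i) = if ∀ p ∈ pz z, ¬ p ∣ n ^ 2 + n + A i then (Vz z)⁻¹ else 0 := by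
    intro i
    unfold mdl
    rw [qf_cast]
    simp only [Int.natCast_dvd_natCast]
  by_cases h5 : qR z A n
  · rw [if_pos h5, mul_one]
    have h7 : ∀ i : Fin k, mdl z (qf n + A i) = (Vz z)⁻¹ := fun i => by rw [e i, if_pos (h5 i)]
    rw [prod_congr rfl (fun i _ => h7 i), prod_const, card_univ, Fintype.card_fin]
  · rw [if_neg h5, mul_zero]
    unfold qR at h5
    push Not at h5
    obtain ⟨i, p, hp, hi⟩ := h5
    refine prod_eq_zero (mem_univ i) ?_
    rw [e i]
    exact if_neg (fun h => h p hp hi)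

open Classical in
/-- from the weights to the numbers of prime values -/
theorem convq (k B K S : ℕ) (hB : 1 ≤ B) (ε : ℝ) (hε : 0 < ε) : ∃ N0 : ℕ, ∀ N : ℕ, N0 ≤ N →
    ∀ A : Fin k → ℕ, A ∈ vec k B N → (∀ i, (N : ℝ) ^ 2 / Real.log N ^ S ≤ A i) →
    ∀ M : Finset ℕ, M ⊆ Ioc 0 (B * N) → ∀ Q : ℝ, (N : ℝ) / Real.log N ^ K ≤ Q →
    |∑ n ∈ M, ∏ i, lamP (qf n + A i) - Q| ≤ N / Real.log N ^ (K + 1) →
    |((M.filter (fun n => qP A n)).card : ℝ) - Q / (2 * Real.log N) ^ k| ≤ ε * (Q / (2 * Real.log N) ^ k) := by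
  obtain ⟨δ, hδ0, hδ1, hδa, hδb⟩ := choose_delta k ε hε
  obtain ⟨n1, h1⟩ := ev_loglog S δ hδ0
  obtain ⟨n2, h2⟩ := ev_L' (2 / δ + Real.log (3 * B ^ 2) / (2 * δ) + 4)
  refine ⟨n1 + n2 + 4, fun N hN A hA hAS M hM Q hQlow hW => ?_⟩
  have b1 := h1 N (by omega)
  have b2 := h2 N (by omega)
  obtain ⟨L, hL⟩ : ∃ L, L = Real.log (N : ℝ) := ⟨_, rfl⟩
  rw [← hL] at b1 b2 hAS hQlow hW ⊢
  have hBr : (1 : ℝ) ≤ B := by exact_mod_cast hB
  have hlB : 0 ≤ Real.log (3 * B ^ 2) := Real.log_nonneg (by nlinarith)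
  have q1 : 0 ≤ 2 / δ := by positivity
  have q2 : 0 ≤ Real.log (3 * B ^ 2) / (2 * δ) := by positivity
  have hL4 : 4 ≤ L := by linarith
  have hL1 : 1 ≤ L := by linarith
  have hL0 : 0 < L := by linarith
  have hNr : (4 : ℝ) ≤ N := by exact_mod_cast (by omega : 4 ≤ N)
  have hN0 : (0 : ℝ) < N := by linarith
  have hQ0 : 0 < Q := lt_of_lt_of_le (by positivity) hQlow
  obtain ⟨W, hWd⟩ : ∃ W, W = ∑ n ∈ M, ∏ i, lamP (qf n + A i) := ⟨_, rfl⟩
  rw [← hWd] at hW
  have hWQ : |W - Q| ≤ δ / 2 * Q := by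
    refine hW.trans ?_
    have e1 : 2 ≤ L * δ := by
      have : 2 / δ ≤ L := by linarith
      rwa [div_le_iff₀ hδ0] at this
    calc (N : ℝ) / L ^ (K + 1) = (1 / L) * (N / L ^ K) := by rw [pow_succ]; field_simp
      _ ≤ (δ / 2) * (N / L ^ K) := by
          apply mul_le_mul_of_nonneg_right _ (by positivity)
          rw [div_le_iff₀ hL0]
          linarith
      _ ≤ δ / 2 * Q := mul_le_mul_of_nonneg_left hQlow (by positivity)
  obtain ⟨w1, w2⟩ := abs_le.1 hWQ
  obtain ⟨P, hP⟩ : ∃ P : ℝ, P = ((M.filter (fun n => qP A n)).card : ℝ) := ⟨_, rfl⟩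
  have hP0 : 0 ≤ P := by rw [hP]; exact Nat.cast_nonneg _
  rw [← hP]
  have hA2 : ∀ i, 1 ≤ A i ∧ A i ≤ B * N ^ 2 := by
    intro i
    unfold vec at hA
    exact mem_Icc.1 (Fintype.mem_piFinset.1 hA i)
  -- the terms
  have hterm : ∀ n ∈ M, (qP A n → (2 * L * (1 - δ)) ^ k ≤ ∏ i, lamP (qf n + A i) ∧ ∏ i, lamP (qf n + A i) ≤ (2 * L * (1 + δ)) ^ k) ∧
      (¬ qP A n → ∏ i, lamP (qf n + A i) = 0) := by
    intro n hn
    have hn2 := mem_Ioc.1 (hM hn)
    have hlam : ∀ i, lamP (qf n + A i) = if (n ^ 2 + n + A i).Prime then Real.log ((n ^ 2 + n + A i : ℕ) : ℝ) else 0 := by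
      intro i
      unfold lamP
      rw [qf_cast, Int.toNat_natCast]
    constructor
    · intro hq
      have hi : ∀ i, 2 * L * (1 - δ) ≤ lamP (qf n + A i) ∧ lamP (qf n + A i) ≤ 2 * L * (1 + δ) := by
        intro i
        rw [hlam i, if_pos (hq i)]
        have hpos : (0 : ℝ) < ((n ^ 2 + n + A i : ℕ) : ℝ) := by exact_mod_cast (hq i).pos
        constructor
        · have h5 : (N : ℝ) ^ 2 / L ^ S ≤ ((n ^ 2 + n + A i : ℕ) : ℝ) := by
            refine (hAS i).trans ?_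
            exact_mod_cast Nat.le_add_left _ _
          have h6 := Real.log_le_log (by positivity) h5
          rw [Real.log_div (by positivity) (by positivity), Real.log_pow, Real.log_pow, ← hL] at h6
          push_cast at h6 ⊢
          nlinarith
        · have h5 : ((n ^ 2 + n + A i : ℕ) : ℝ) ≤ (3 * B ^ 2) * N ^ 2 := by
            exact_mod_cast size_bd B N n (A i) hB (by omega) hn2.2 (hA2 i).2
          have h6 := Real.log_le_log hpos h5
          rw [Real.log_mul (by positivity) (by positivity), Real.log_pow, ← hL] at h6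
          have h7 : Real.log (3 * B ^ 2) ≤ L * (2 * δ) := by
            have : Real.log (3 * B ^ 2) / (2 * δ) ≤ L := by linarith
            rwa [div_le_iff₀ (by positivity)] at this
          refine h6.trans ?_
          push_cast
          linarith
      have hpos : 0 ≤ 2 * L * (1 - δ) := by
        have : 0 < 1 - δ := by linarith
        positivity
      constructor
      · calc (2 * L * (1 - δ)) ^ k = ∏ _i : Fin k, (2 * L * (1 - δ)) := by rw [prod_const, card_univ, Fintype.card_fin]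
          _ ≤ _ := prod_le_prod (fun _ _ => hpos) fun i _ => (hi i).1
      · calc ∏ i, lamP (qf n + A i) ≤ ∏ _i : Fin k, (2 * L * (1 + δ)) := prod_le_prod (fun _ _ => lamP_nonneg _) fun i _ => (hi i).2
          _ = _ := by rw [prod_const, card_univ, Fintype.card_fin]
    · intro hq
      unfold qP at hq
      push Not at hq
      obtain ⟨i, hi⟩ := hq
      refine prod_eq_zero (mem_univ i) ?_
      rw [hlam i, if_neg hi]
  have hWs : W = ∑ n ∈ M.filter (fun n => qP A n), ∏ i, lamP (qf n + A i) := by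
    rw [hWd, sum_filter]
    refine sum_congr rfl fun n hn => ?_
    by_cases hq : qP A n
    · rw [if_pos hq]
    · rw [if_neg hq, (hterm n hn).2 hq]
  have hlow : (2 * L * (1 - δ)) ^ k * P ≤ W := by
    rw [hWs, hP, mul_comm, ← nsmul_eq_mul]
    apply card_nsmul_le_sum
    intro n hn
    rw [mem_filter] at hn
    exact ((hterm n hn.1).1 hn.2).1
  have hup : W ≤ (2 * L * (1 + δ)) ^ k * P := by
    rw [hWs, hP, mul_comm, ← nsmul_eq_mul]
    apply sum_le_card_nsmul
    intro n hn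
    rw [mem_filter] at hn
    exact ((hterm n hn.1).1 hn.2).2
  have h2L : 0 < (2 * L) ^ k := by positivity
  have h1δ : 0 < 1 - δ := by linarith
  have g1 : (1 - ε) * Q ≤ (2 * L) ^ k * P := by
    rw [mul_pow (2 * L)] at hup
    have h5 : (1 - δ) * Q ≤ (2 * L) ^ k * (1 + δ) ^ k * P := by
      have : (1 - δ) * Q ≤ W := by nlinarith
      linarith
    have h6 : (0 : ℝ) < (1 + δ) ^ k := by positivity
    have h7 : (1 - ε) * (1 + δ) ^ k ≤ 1 - δ ∨ 1 - ε < 0 := by
      by_cases he : 1 - ε < 0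
      · exact Or.inr he
      · left
        refine le_trans ?_ hδa
        apply mul_le_mul_of_nonneg_left _ (not_lt.1 he)
        exact pow_le_pow_right₀ (by linarith) (by omega)
    rcases h7 with h7 | h7
    · have h8 : (1 - ε) * (1 + δ) ^ k * Q ≤ (2 * L) ^ k * (1 + δ) ^ k * P := (mul_le_mul_of_nonneg_right h7 hQ0.le).trans h5
      have h9 : (1 + δ) ^ k * ((1 - ε) * Q) ≤ (1 + δ) ^ k * ((2 * L) ^ k * P) := by linarith
      exact le_of_mul_le_mul_left h9 h6
    · have h8 : (1 - ε) * Q ≤ 0 := mul_nonpos_of_nonpos_of_nonneg h7.le hQ0.le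
      exact h8.trans (by positivity)
  have g2 : (2 * L) ^ k * P ≤ (1 + ε) * Q := by
    rw [mul_pow (2 * L)] at hlow
    have h5 : (2 * L) ^ k * (1 - δ) ^ k * P ≤ (1 + 2 * δ) * Q := by
      have : W ≤ (1 + 2 * δ) * Q := by nlinarith
      linarith
    have h6 : 0 < (1 - δ) ^ k := by positivity
    have h7 : 1 + 2 * δ ≤ (1 + ε) * (1 - δ) ^ k := by
      refine hδb.trans ?_
      apply mul_le_mul_of_nonneg_left _ (by linarith)
      exact pow_le_pow_of_le_one h1δ.le (by linarith) (by omega)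
    have h8 : (1 - δ) ^ k * ((2 * L) ^ k * P) ≤ (1 - δ) ^ k * ((1 + ε) * Q) := by
      have := mul_le_mul_of_nonneg_right h7 hQ0.le
      linarith
    exact le_of_mul_le_mul_left h8 h6
  have e1 : P - Q / (2 * L) ^ k = ((2 * L) ^ k * P - Q) / (2 * L) ^ k := by field_simp
  have e2 : ε * (Q / (2 * L) ^ k) = (ε * Q) / (2 * L) ^ k := by ring
  rw [e1, e2, abs_div, abs_of_pos h2L]
  apply div_le_div_of_nonneg_right _ h2L.le
  rw [abs_le]
  constructor <;> linarith

end Pool.Agent.E8helper28.QD
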